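import Pool.Agent.Helper924.MW.ThreeZero
import Pool.Agent.Helper924.MW.Density

namespace Pool.Agent.Results.MP_e5c236_nt.BoundsAndDensity

/-- `n` is `s`-representable for `k`: it is a sum of exactly `s` positive integers whose product
is the `k`-th power of a positive integer. -/
def Representable (k s n : ℕ) : Prop :=
  ∃ x : Fin s → ℕ, (∀ i, 0 < x i) ∧ n = ∑ i, x i ∧ ∃ y : ℕ, 0 < y ∧ ∏ i, x i = y ^ k

/-- `G'(k)`: the least positive `s` such that every sufficiently large `n` is `t`-representable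
for `k` for some `1 ≤ t ≤ s`. -/
noncomputable def GPrime (k : ℕ) : ℕ :=
  sInf {s : ℕ | 1 ≤ s ∧ ∃ N : ℕ, ∀ n : ℕ, N ≤ n → ∃ t : ℕ, 1 ≤ t ∧ t ≤ s ∧ Representable k t n}

/-- the exceptional set `E` of the question -/
def E : Finset ℕ := {1, 2, 3, 5, 6, 7, 11, 13, 14, 15, 17, 22, 23}

theorem rep_iff (s n : ℕ) :
    (∃ t : ℕ, 1 ≤ t ∧ t ≤ s ∧ Representable 4 t n) ↔ Pool.Agent.Helper924.MW.Lower.Rep 4 s n := by
  constructor
  · rintro ⟨t, h1, h2, x, hx, hs, y, -, hy⟩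
    exact ⟨t, h1, h2, x, hx, hs, y, hy⟩
  · rintro ⟨t, h1, h2, x, hx, hs, y, hy⟩
    refine ⟨t, h1, h2, x, hx, hs, y, ?_, hy⟩
    rcases Nat.eq_zero_or_pos y with h | h
    · exfalso
      rw [h, zero_pow (by norm_num)] at hy
      have : 0 < ∏ i, x i := Finset.prod_pos fun i _ => hx i
      omega
    · exact h

theorem gprime_eq : GPrime 4 = Pool.Agent.Helper924.MW.Lower.GPrime 4 := by
  unfold GPrime Pool.Agent.Helper924.MW.Lower.GPrime
  congr 1
  ext s
  simp only [Set.mem_ofPred_eq, rep_iff]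

theorem four_iff (n : ℕ) : Representable 4 4 n ↔ Pool.Agent.Helper924.MW.Density.Four n := by
  constructor
  · rintro ⟨x, hx, hs, y, hy0, hy⟩
    refine ⟨x 0, x 1, x 2, x 3, hx 0, hx 1, hx 2, hx 3, ?_, y, hy0, ?_⟩
    · rw [hs, Fin.sum_univ_four]
    · rw [← hy, Fin.prod_univ_four]
  · rintro ⟨a, b, c, d, ha, hb, hc, hd, hs, y, hy0, hy⟩
    refine ⟨![a, b, c, d], ?_, ?_, y, hy0, ?_⟩
    · intro i
      fin_cases i <;> simpa
    · rw [hs, Fin.sum_univ_four]; rfl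
    · rw [← hy, Fin.prod_univ_four]; rfl

/-- elements of `E` have no representation by exactly four summands -/
theorem not_of_mem_E : ∀ n ∈ E, ¬ Representable 4 4 n := by
  have key : ∀ n ∈ E, ∀ a ∈ Finset.Icc 1 23, ∀ b ∈ Finset.Icc 1 23, ∀ c ∈ Finset.Icc 1 23,
      a + b + c < n → ∀ y ∈ Finset.Icc 1 6, a * b * c * (n - a - b - c) ≠ y ^ 4 := by
    decide +kernel
  intro n hn hrep
  rw [four_iff] at hrep
  obtain ⟨a, b, c, d, ha, hb, hc, hd, hs, y, hy0, hy⟩ := hrep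
  have hn23 : n ≤ 23 := by
    have hE : ∀ m ∈ E, m ≤ 23 := by decide
    exact hE n hn
  have hd' : d = n - a - b - c := by omega
  have hy6 : y ≤ 6 := by
    by_contra hcon
    push Not at hcon
    have h1 : 7 ^ 4 ≤ y ^ 4 := Nat.pow_le_pow_left hcon 4
    have h2 : a * b * c * d < 7 ^ 4 := by
      have e1 : 4 * (a * b) ≤ (a + b) ^ 2 := by nlinarith [sq_nonneg ((a : ℤ) - b)]
      have e2 : 4 * (c * d) ≤ (c + d) ^ 2 := by nlinarith [sq_nonneg ((c : ℤ) - d)]
      have e3 : 4 * ((a + b) * (c + d)) ≤ (a + b + (c + d)) ^ 2 := by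
        nlinarith [sq_nonneg (((a : ℤ) + b) - (c + d))]
      have e4 : (a + b + (c + d)) ^ 2 ≤ 23 ^ 2 := Nat.pow_le_pow_left (by omega) 2
      have e5 : (a + b) * (c + d) ≤ 132 := by omega
      have e6 : (4 * (a * b)) * (4 * (c * d)) ≤ ((a + b) ^ 2) * ((c + d) ^ 2) :=
        Nat.mul_le_mul e1 e2
      have e7 : ((a + b) ^ 2) * ((c + d) ^ 2) = ((a + b) * (c + d)) ^ 2 := by ring
      have e8 : ((a + b) * (c + d)) ^ 2 ≤ 132 ^ 2 := Nat.pow_le_pow_left e5 2
      have e9 : (4 * (a * b)) * (4 * (c * d)) = 16 * (a * b * c * d) := by ring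
      omega
    omega
  exact key n hn a (Finset.mem_Icc.mpr ⟨ha, by omega⟩) b (Finset.mem_Icc.mpr ⟨hb, by omega⟩)
    c (Finset.mem_Icc.mpr ⟨hc, by omega⟩) (by omega) y (Finset.mem_Icc.mpr ⟨hy0, hy6⟩)
    (by rw [← hd']; exact hy)

theorem result :
    -- `G'(4)` is `4` or `5`
    (4 ≤ GPrime 4 ∧ GPrime 4 ≤ 5) ∧
    -- no element of `E` is a sum of exactly four positive integers with fourth-power product
    (∀ n ∈ E, ¬ Representable 4 4 n) ∧
    -- almost all positive integers are such sums of exactly four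
    Filter.Tendsto
      (fun N : ℕ => (({n : ℕ | 1 ≤ n ∧ n ≤ N ∧ ¬ Representable 4 4 n}.ncard : ℕ) : ℝ) / (N : ℝ))
      Filter.atTop (nhds 0) ∧
    -- almost no positive integer is such a sum of at most three
    Filter.Tendsto
      (fun N : ℕ => (({n : ℕ | 1 ≤ n ∧ n ≤ N ∧
        ∃ t : ℕ, 1 ≤ t ∧ t ≤ 3 ∧ Representable 4 t n}.ncard : ℕ) : ℝ) / (N : ℝ))
      Filter.atTop (nhds 0) := by
  refine ⟨⟨?_, ?_⟩, not_of_mem_E, ?_, ?_⟩
  · rw [gprime_eq]; exact Pool.Agent.Helper924.MW.Lower.four_le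
  · rw [gprime_eq]; exact Pool.Agent.Helper924.MW.Lower.le_five
  · simp only [four_iff]; exact Pool.Agent.Helper924.MW.Density.four_density
  · simp only [rep_iff]; exact Pool.Agent.Helper924.MW.Lower.three_density

end Pool.Agent.Results.MP_e5c236_nt.BoundsAndDensity
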