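import Mathlib

namespace Pool.Agent.Results.MP_e5c236_nt.ExactlyFourDensityOne


/-- `n` is a sum of exactly four positive integers whose product is the fourth power of a
positive integer. -/
def Four (n : ℕ) : Prop :=
  ∃ a b c d : ℕ, 0 < a ∧ 0 < b ∧ 0 < c ∧ 0 < d ∧ n = a + b + c + d ∧
    ∃ x : ℕ, 0 < x ∧ a * b * c * d = x ^ 4

theorem Four.mul {n m : ℕ} (hn : Four n) (hm : 0 < m) : Four (m * n) := by
  obtain ⟨a, b, c, d, ha, hb, hc, hd, hs, x, hx, hp⟩ := hn
  refine ⟨m * a, m * b, m * c, m * d, by positivity, by positivity, by positivity,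
    by positivity, by rw [hs]; ring, m * x, by positivity, ?_⟩
  calc m * a * (m * b) * (m * c) * (m * d) = m ^ 4 * (a * b * c * d) := by ring
    _ = (m * x) ^ 4 := by rw [hp]; ring

theorem thue (p : ℕ) [Fact p.Prime] (z : ZMod p) :
    ∃ x y : ℤ, (x ≠ 0 ∨ y ≠ 0) ∧ x ^ 2 < p ∧ y ^ 2 < p ∧ (x : ZMod p) = z * y := by
  have hp : p.Prime := Fact.out
  set r := Nat.sqrt p with hr
  have hr1 : r * r ≤ p := Nat.sqrt_le p
  have hr2 : p < (r + 1) * (r + 1) := Nat.lt_succ_sqrt p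
  have hr3 : r * r < p := by
    refine lt_of_le_of_ne hr1 ?_
    intro h
    have : IsSquare p := ⟨r, h.symm⟩
    exact hp.prime.not_isSquare this
  let f : Fin (r + 1) × Fin (r + 1) → ZMod p := fun ij => (ij.1 : ℕ) - z * (ij.2 : ℕ)
  have hcard : Fintype.card (ZMod p) < Fintype.card (Fin (r + 1) × Fin (r + 1)) := by
    rw [ZMod.card, Fintype.card_prod, Fintype.card_fin]
    exact hr2
  obtain ⟨⟨i, j⟩, ⟨i', j'⟩, hne, heq⟩ := Fintype.exists_ne_map_eq_of_card_lt f hcard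
  refine ⟨((i : ℕ) : ℤ) - ((i' : ℕ) : ℤ), ((j : ℕ) : ℤ) - ((j' : ℕ) : ℤ), ?_, ?_, ?_, ?_⟩
  · by_contra hcon
    push Not at hcon
    apply hne
    have h1 : (i : ℕ) = (i' : ℕ) := by omega
    have h2 : (j : ℕ) = (j' : ℕ) := by omega
    exact Prod.ext (Fin.ext h1) (Fin.ext h2)
  · have h1 : ((i : ℕ) : ℤ) ≤ r := by have := i.2; omega
    have h2 : ((i' : ℕ) : ℤ) ≤ r := by have := i'.2; omega
    have h3 : (0 : ℤ) ≤ ((i : ℕ) : ℤ) := by positivity
    have h4 : (0 : ℤ) ≤ ((i' : ℕ) : ℤ) := by positivity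
    have h5 : (r : ℤ) * r < p := by exact_mod_cast hr3
    nlinarith
  · have h1 : ((j : ℕ) : ℤ) ≤ r := by have := j.2; omega
    have h2 : ((j' : ℕ) : ℤ) ≤ r := by have := j'.2; omega
    have h3 : (0 : ℤ) ≤ ((j : ℕ) : ℤ) := by positivity
    have h4 : (0 : ℤ) ≤ ((j' : ℕ) : ℤ) := by positivity
    have h5 : (r : ℤ) * r < p := by exact_mod_cast hr3
    nlinarith
  · have : ((i : ℕ) : ZMod p) - z * ((j : ℕ) : ZMod p)
        = ((i' : ℕ) : ZMod p) - z * ((j' : ℕ) : ZMod p) := heq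
    push_cast
    linear_combination this

theorem seven_not_sq : ∀ n : ℤ, (7 : ℤ) ≠ n * n := by
  intro n h
  have h1 : n ≤ 3 := by nlinarith
  have h2 : -3 ≤ n := by nlinarith
  interval_cases n <;> omega

theorem norm_zero {x y : ℤ} (h : x ^ 2 - 7 * y ^ 2 = 0) : x = 0 ∧ y = 0 := by
  have h1 := (Zsqrtd.norm_eq_zero seven_not_sq (⟨x, y⟩ : ℤ√7)).mp (by
    rw [Zsqrtd.norm_def]; simp only; linarith)
  have h2 := congrArg Zsqrtd.re h1
  have h3 := congrArg Zsqrtd.im h1
  exact ⟨by simpa using h2, by simpa using h3⟩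

theorem residues : ∀ x y : ZMod 28, x ^ 2 - 7 * y ^ 2 ≠ -1 ∧ x ^ 2 - 7 * y ^ 2 ≠ -2 ∧
    x ^ 2 - 7 * y ^ 2 ≠ -4 ∧ x ^ 2 - 7 * y ^ 2 ≠ -5 := by
  decide

theorem norm_form (p : ℕ) (hp : p.Prime) (h28 : p % 28 = 1) :
    ∃ X Y : ℤ, X ^ 2 - 7 * Y ^ 2 = p := by
  have : Fact p.Prime := ⟨hp⟩
  have : Fact (Nat.Prime 7) := ⟨by norm_num⟩
  have hsq : IsSquare ((7 : ℕ) : ZMod p) := by
    rw [ZMod.exists_sq_eq_prime_iff_of_mod_four_eq_one (by omega) (by norm_num)]
    have h7 : ((p : ℕ) : ZMod 7) = 1 := by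
      have : ((p : ℕ) : ZMod 7) = ((1 : ℕ) : ZMod 7) := by
        rw [ZMod.natCast_eq_natCast_iff']
        omega
      simpa using this
    rw [h7]
    exact IsSquare.one
  obtain ⟨z, hz⟩ := hsq
  obtain ⟨x, y, hne, hx, hy, hxy⟩ := thue p z
  have hdvd : (p : ℤ) ∣ x ^ 2 - 7 * y ^ 2 := by
    rw [← ZMod.intCast_zmod_eq_zero_iff_dvd]
    push_cast
    rw [hxy]
    have : (7 : ZMod p) = z * z := by simpa using hz
    rw [this]; ring
  obtain ⟨k, hk⟩ := hdvd
  have hp0 : (0 : ℤ) < p := by exact_mod_cast hp.pos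
  have hk1 : k < 1 := by
    by_contra hcon
    push Not at hcon
    nlinarith [sq_nonneg y]
  have hk2 : -7 < k := by
    by_contra hcon
    push Not at hcon
    nlinarith [sq_nonneg x]
  have hcast : ((x : ZMod 28)) ^ 2 - 7 * (y : ZMod 28) ^ 2 = (k : ZMod 28) := by
    have h1 : ((x ^ 2 - 7 * y ^ 2 : ℤ) : ZMod 28) = ((p * k : ℤ) : ZMod 28) := by rw [hk]
    have h2 : ((p : ℕ) : ZMod 28) = 1 := by
      have : ((p : ℕ) : ZMod 28) = ((1 : ℕ) : ZMod 28) := by
        rw [ZMod.natCast_eq_natCast_iff']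
        omega
      simpa using this
    push_cast at h1
    rw [h2, one_mul] at h1
    exact h1
  have hres := residues (x : ZMod 28) (y : ZMod 28)
  rw [hcast] at hres
  have hkcases : k = -6 ∨ k = -3 ∨ k = 0 := by
    obtain ⟨h1, h2, h4, h5⟩ := hres
    interval_cases k
    · left; rfl
    · exact absurd (by norm_num) h5
    · exact absurd (by norm_num) h4
    · right; left; rfl
    · exact absurd (by norm_num) h2
    · exact absurd (by norm_num) h1
    · right; right; rfl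
  rcases hkcases with rfl | rfl | rfl
  · -- `x^2 - 7y^2 = -6p`
    have hmod4 : x % 2 = 1 ∧ y % 2 = 1 := by
      have h4 : (x ^ 2 - 7 * y ^ 2) % 4 = 2 := by
        rw [hk]; omega
      rcases Int.emod_two_eq_zero_or_one x with hx2 | hx2 <;>
      rcases Int.emod_two_eq_zero_or_one y with hy2 | hy2
      · obtain ⟨u, hu⟩ : ∃ u, x = 2 * u := ⟨x / 2, by omega⟩
        obtain ⟨v, hv⟩ : ∃ v, y = 2 * v := ⟨y / 2, by omega⟩
        subst hu; subst hv
        ring_nf at h4
        omega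
      · obtain ⟨u, hu⟩ : ∃ u, x = 2 * u := ⟨x / 2, by omega⟩
        obtain ⟨v, hv⟩ : ∃ v, y = 2 * v + 1 := ⟨y / 2, by omega⟩
        subst hu; subst hv
        ring_nf at h4
        omega
      · obtain ⟨u, hu⟩ : ∃ u, x = 2 * u + 1 := ⟨x / 2, by omega⟩
        obtain ⟨v, hv⟩ : ∃ v, y = 2 * v := ⟨y / 2, by omega⟩
        subst hu; subst hv
        ring_nf at h4
        omega
      · exact ⟨hx2, hy2⟩
    have h3 : (3 : ℤ) ∣ (x + y) * (x - y) := ⟨2 * y ^ 2 - 2 * p, by linear_combination hk⟩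
    rcases (Int.prime_three).dvd_or_dvd h3 with h | h
    · obtain ⟨u, hu⟩ : ∃ u, x + y = 6 * u := ⟨(x + y) / 6, by omega⟩
      have hx' : x = 6 * u - y := by linarith
      refine ⟨u + y, u, ?_⟩
      have : (6 * u - y) ^ 2 - 7 * y ^ 2 = p * (-6) := by rw [← hx']; exact hk
      nlinarith
    · obtain ⟨u, hu⟩ : ∃ u, x - y = 6 * u := ⟨(x - y) / 6, by omega⟩
      have hx' : x = 6 * u + y := by linarith
      refine ⟨u - y, u, ?_⟩
      have : (6 * u + y) ^ 2 - 7 * y ^ 2 = p * (-6) := by rw [← hx']; exact hk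
      nlinarith
  · have h3 : (3 : ℤ) ∣ (x + y) * (x - y) := ⟨2 * y ^ 2 - p, by linear_combination hk⟩
    rcases (Int.prime_three).dvd_or_dvd h3 with h | h
    · obtain ⟨u, hu⟩ := h
      have hx' : x = 3 * u - y := by linarith
      refine ⟨2 * u - 3 * y, u - y, ?_⟩
      have : (3 * u - y) ^ 2 - 7 * y ^ 2 = p * (-3) := by rw [← hx']; exact hk
      nlinarith
    · obtain ⟨u, hu⟩ := h
      have hx' : x = 3 * u + y := by linarith
      refine ⟨2 * u + 3 * y, u + y, ?_⟩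
      have : (3 * u + y) ^ 2 - 7 * y ^ 2 = p * (-3) := by rw [← hx']; exact hk
      nlinarith
  · exfalso
    have := norm_zero (x := x) (y := y) (by rw [hk]; ring)
    rcases hne with h | h
    · exact h this.1
    · exact h this.2

theorem reduce (p : ℕ) (hp : p.Prime) (hpne : p ≠ 2) (h : ∃ X Y : ℤ, X ^ 2 - 7 * Y ^ 2 = p) :
    ∃ s t : ℕ, 0 < s ∧ 0 < t ∧ p = s ^ 2 + 6 * (s * t) + 2 * t ^ 2 := by
  have hex : ∃ Y : ℕ, ∃ X : ℕ, (X : ℤ) ^ 2 = 7 * (Y : ℤ) ^ 2 + p := by
    obtain ⟨X, Y, hXY⟩ := h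
    refine ⟨Y.natAbs, X.natAbs, ?_⟩
    rw [Int.natAbs_sq, Int.natAbs_sq]
    linarith
  classical
  obtain ⟨X, hX⟩ := Nat.find_spec hex
  set Y := Nat.find hex with hY
  have hp0 : (0 : ℤ) < p := by exact_mod_cast hp.pos
  have hp2 : (2 : ℤ) ≤ p := by exact_mod_cast hp.two_le
  have hXn : (0 : ℤ) ≤ X := by positivity
  have hYn : (0 : ℤ) ≤ Y := by positivity
  have hYpos : 0 < Y := by
    rcases Nat.eq_zero_or_pos Y with h0 | h0
    · exfalso
      rw [h0] at hX
      have : X * X = p := by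
        have : (X : ℤ) * X = p := by push_cast at hX; nlinarith
        exact_mod_cast this
      exact hp.prime.not_isSquare ⟨X, this.symm⟩
    · exact h0
  have hgt : 3 * Y < X := by
    by_contra hcon
    push Not at hcon
    have hcon' : (X : ℤ) ≤ 3 * Y := by exact_mod_cast hcon
    -- the smaller solution
    have hnew : ((8 * (X : ℤ) - 21 * Y).natAbs : ℤ) ^ 2
        = 7 * (((3 * (X : ℤ) - 8 * Y).natAbs : ℕ) : ℤ) ^ 2 + p := by
      rw [Int.natAbs_sq, Int.natAbs_sq]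
      linear_combination hX
    have hmin := Nat.find_min' hex ⟨_, hnew⟩
    rw [← hY] at hmin
    have h1 : (Y : ℤ) ≤ |3 * (X : ℤ) - 8 * Y| := by
      rw [Int.abs_eq_natAbs]
      exact_mod_cast hmin
    rcases le_abs'.mp h1 with h2 | h2
    · have h3 : 3 * (X : ℤ) ≤ 7 * Y := by linarith
      nlinarith
    · have h3 : (X : ℤ) = 3 * Y := by linarith
      rw [h3] at hX
      have h4 : (p : ℤ) = 2 * (Y : ℤ) ^ 2 := by linarith
      have h5 : p = 2 * Y ^ 2 := by exact_mod_cast h4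
      have h6 : Y * Y ∣ p := ⟨2, by rw [h5]; ring⟩
      have h7 : Y = 1 := by
        rcases (Nat.dvd_prime hp).mp (dvd_trans (Dvd.intro _ rfl) h6) with h8 | h8
        · exact h8
        · exfalso
          rw [h8] at h6
          have := Nat.le_of_dvd hp.pos h6
          have := hp.two_le
          nlinarith
      rw [h7] at h5
      exact hpne (by simpa using h5)
  refine ⟨X - 3 * Y, Y, by omega, hYpos, ?_⟩
  obtain ⟨s, hs⟩ : ∃ s, X = s + 3 * Y := ⟨X - 3 * Y, by omega⟩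
  have hs' : X - 3 * Y = s := by omega
  rw [hs']
  have : (p : ℤ) = (s : ℤ) ^ 2 + 6 * (s * Y) + 2 * Y ^ 2 := by
    rw [hs] at hX
    push_cast at hX
    linarith
  exact_mod_cast this

theorem four_of_prime (p : ℕ) (hp : p.Prime) (h28 : p % 28 = 1) : Four p := by
  obtain ⟨s, t, hs, ht, hst⟩ := reduce p hp (by rintro rfl; omega) (norm_form p hp h28)
  refine ⟨s ^ 2, 2 * (s * t), 4 * (s * t), 2 * t ^ 2, by positivity, by positivity,
    by positivity, by positivity, by rw [hst]; ring, 2 * (s * t), by positivity, by ring⟩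

theorem four_of_dvd {p n : ℕ} (hp : p.Prime) (h28 : p % 28 = 1) (hn : 0 < n) (hpn : p ∣ n) :
    Four n := by
  obtain ⟨m, rfl⟩ := hpn
  rw [mul_comm]
  exact (four_of_prime p hp h28).mul (Nat.pos_of_mul_pos_left hn)


/-! ### Divergence of the sum of reciprocals of primes in a residue class -/

section Divergence

open ArithmeticFunction ArithmeticFunction.vonMangoldt



/-- `1/p` on primes in the residue class `a`, and `0` elsewhere. -/
noncomputable def g {q : ℕ} (a : ZMod q) (n : ℕ) : ℝ :=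
  if n.Prime ∧ (n : ZMod q) = a then (1 : ℝ) / n else 0

theorem g_nonneg {q : ℕ} (a : ZMod q) (n : ℕ) : 0 ≤ g a n := by
  unfold g
  split_ifs <;> positivity

theorem exp_ineq (t : ℝ) :
    t * Real.exp (-t) ≤ 2 * (Real.exp (-(t / 2)) - Real.exp (-t)) := by
  have h1 : Real.exp (-(t/2)) = Real.exp (t/2) * Real.exp (-t) := by
    rw [← Real.exp_add]; congr 1; ring
  have h2 : t / 2 + 1 ≤ Real.exp (t/2) := Real.add_one_le_exp _
  have h3 : 0 < Real.exp (-t) := Real.exp_pos _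
  rw [h1]
  nlinarith

theorem not_summable_g {q : ℕ} [NeZero q] {a : ZMod q} (ha : IsUnit a) :
    ¬ Summable (g a) := by
  intro hS
  obtain ⟨C, hC⟩ := LSeries_residueClass_lower_bound ha
  have hnp := summable_residueClass_non_primes_div (q := q) a
  set C2 := ∑' n : ℕ, (if n.Prime then 0 else residueClass a n) / (n : ℝ) with hC2
  -- exponentials
  set w : ℕ → ℕ → ℝ := fun j n => g a n * Real.exp (-((1/2 : ℝ) ^ j * Real.log n)) with hw
  have hw_nonneg : ∀ j n, 0 ≤ w j n := fun j n => mul_nonneg (g_nonneg a n) (Real.exp_pos _).le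
  have hw_le : ∀ j n, w j n ≤ g a n := by
    intro j n
    have : Real.exp (-((1/2 : ℝ) ^ j * Real.log n)) ≤ 1 := by
      rw [Real.exp_le_one_iff]
      have := Real.log_natCast_nonneg n
      have h2 : (0:ℝ) ≤ (1/2 : ℝ)^j := by positivity
      nlinarith [mul_nonneg h2 this]
    exact mul_le_of_le_one_right (g_nonneg a n) this
  have hw_sum : ∀ j, Summable (w j) := fun j =>
    Summable.of_nonneg_of_le (hw_nonneg j) (hw_le j) hS
  set u : ℕ → ℝ := fun j => ∑' n, w j n with hu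
  have hu_nonneg : ∀ j, 0 ≤ u j := fun j => tsum_nonneg (hw_nonneg j)
  have hu_le : ∀ j, u j ≤ ∑' n, g a n := fun j =>
    (hw_sum j).tsum_le_tsum (hw_le j) hS
  have hq : 0 < (q.totient : ℝ)⁻¹ := inv_pos.mpr (mod_cast q.totient.pos_of_neZero)
  have step : ∀ j : ℕ, (q.totient : ℝ)⁻¹ ≤ (1/2 : ℝ)^j * (C + C2) + 2 * (u (j+1) - u j) := by
    intro j
    have hj0 : (0:ℝ) < (1/2 : ℝ)^j := by positivity
    have hj1 : (1/2 : ℝ)^j ≤ 1 := pow_le_one₀ (by norm_num) (by norm_num)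
    have h1 := hC (x := 1 + (1/2 : ℝ)^j) ⟨by linarith, by linarith⟩
    have hterm : ∀ n : ℕ, residueClass a n / (n : ℝ) ^ (1 + (1/2 : ℝ)^j) ≤
        (if n.Prime then 0 else residueClass a n) / (n : ℝ)
          + (2 * ((1/2:ℝ)^j)⁻¹) * (w (j+1) n - w j n) := by
      intro n
      rcases Nat.eq_zero_or_pos n with rfl | hn
      · simp [hw, g]
      have hn1 : (1:ℝ) ≤ n := by exact_mod_cast hn
      have hn0 : (0:ℝ) < n := by linarith
      have hlog : 0 ≤ Real.log n := Real.log_natCast_nonneg n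
      have hrpow : (n : ℝ) ^ (1 + (1/2 : ℝ)^j) = n * Real.exp ((1/2 : ℝ)^j * Real.log n) := by
        rw [Real.rpow_add hn0, Real.rpow_one, Real.rpow_def_of_pos hn0, mul_comm (Real.log _)]
      by_cases hp : n.Prime
      · simp only [hp, if_true, zero_div, zero_add]
        by_cases hna : (n : ZMod q) = a
        · have hr : residueClass a n = Real.log n := by
            rw [residueClass, Set.indicator_of_mem (by exact hna)]
            exact vonMangoldt_apply_prime hp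
          have hg : g a n = 1 / n := by simp [g, hp, hna]
          have hexp := exp_ineq ((1/2 : ℝ)^j * Real.log n)
          have he2 : (1/2 : ℝ)^j * Real.log n / 2 = (1/2 : ℝ)^(j+1) * Real.log n := by
            rw [pow_succ]; ring
          rw [he2] at hexp
          simp only [hw, hg, hr, hrpow]
          have e1 : Real.log n / (n * Real.exp ((1/2 : ℝ)^j * Real.log n))
              = (1 / n) * ((1/2:ℝ)^j)⁻¹ *
                ((1/2 : ℝ)^j * Real.log n * Real.exp (-((1/2 : ℝ)^j * Real.log n))) := by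
            rw [Real.exp_neg]
            field_simp
          rw [e1]
          calc (1 / (n:ℝ)) * ((1/2:ℝ)^j)⁻¹ *
                ((1/2 : ℝ)^j * Real.log n * Real.exp (-((1/2 : ℝ)^j * Real.log n)))
              ≤ (1 / (n:ℝ)) * ((1/2:ℝ)^j)⁻¹ *
                (2 * (Real.exp (-((1/2 : ℝ)^(j+1) * Real.log n))
                  - Real.exp (-((1/2 : ℝ)^j * Real.log n)))) := by
                apply mul_le_mul_of_nonneg_left hexp
                positivity
            _ = _ := by ring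
        · have hr : residueClass a n = 0 := by
            rw [residueClass, Set.indicator_of_notMem (by exact hna)]
          simp [hw, g, hna]
      · simp only [hp, if_false]
        have hg : g a n = 0 := by simp [g, hp]
        simp only [hw, hg, zero_mul, sub_self, mul_zero, add_zero]
        apply div_le_div_of_nonneg_left (residueClass_nonneg a n) hn0
        rw [hrpow]
        have : 1 ≤ Real.exp ((1/2 : ℝ)^j * Real.log n) := Real.one_le_exp (by positivity)
        nlinarith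
    have hsumR : Summable fun n : ℕ => (if n.Prime then 0 else residueClass a n) / (n : ℝ)
          + (2 * ((1/2:ℝ)^j)⁻¹) * (w (j+1) n - w j n) :=
      hnp.add (((hw_sum (j+1)).sub (hw_sum j)).mul_left _)
    have h2 : ∑' n : ℕ, residueClass a n / (n : ℝ) ^ (1 + (1/2 : ℝ)^j) ≤
        C2 + (2 * ((1/2:ℝ)^j)⁻¹) * (u (j+1) - u j) := by
      have hsumL : Summable fun n : ℕ => residueClass a n / (n : ℝ) ^ (1 + (1/2 : ℝ)^j) :=
        Summable.of_nonneg_of_le
          (fun n => div_nonneg (residueClass_nonneg a n) (by positivity)) hterm hsumR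
      refine (hsumL.tsum_le_tsum hterm hsumR).trans ?_
      rw [hnp.tsum_add (((hw_sum (j+1)).sub (hw_sum j)).mul_left _), tsum_mul_left,
        (hw_sum (j+1)).tsum_sub (hw_sum j)]
    have h3 := h1.trans h2
    have e4 : (q.totient : ℝ)⁻¹ / (1 + (1/2 : ℝ)^j - 1) = (q.totient : ℝ)⁻¹ * ((1/2:ℝ)^j)⁻¹ := by
      rw [add_sub_cancel_left, div_eq_mul_inv]
    rw [e4] at h3
    have h5 := mul_le_mul_of_nonneg_left h3 hj0.le
    have e6 : (1/2 : ℝ)^j * ((q.totient : ℝ)⁻¹ * ((1/2:ℝ)^j)⁻¹ - C)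
        = (q.totient : ℝ)⁻¹ - (1/2:ℝ)^j * C := by
      field_simp
    have e7 : (1/2 : ℝ)^j * (C2 + (2 * ((1/2:ℝ)^j)⁻¹) * (u (j+1) - u j))
        = (1/2:ℝ)^j * C2 + 2 * (u (j+1) - u j) := by
      field_simp
    rw [e6, e7] at h5
    linarith
  -- sum the steps
  have total : ∀ J : ℕ, (J : ℝ) * (q.totient : ℝ)⁻¹ ≤
      2 * (1 - (1/2:ℝ)^J) * (C + C2) + 2 * (u J - u 0) := by
    intro J
    induction J with
    | zero => simp
    | succ J ih =>
      have := step J
      push_cast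
      have e : (1/2:ℝ)^(J+1) = (1/2:ℝ)^J / 2 := by rw [pow_succ]; ring
      rw [e]
      nlinarith
  obtain ⟨J, hJ⟩ := exists_nat_gt ((2 * |C + C2| + 2 * ∑' n, g a n) / (q.totient : ℝ)⁻¹)
  rw [div_lt_iff₀ hq] at hJ
  have h1 := total J
  have h2 : 2 * (1 - (1/2:ℝ)^J) * (C + C2) ≤ 2 * |C + C2| := by
    have hJ0 : (0:ℝ) < (1/2 : ℝ)^J := by positivity
    have hJ1 : (1/2 : ℝ)^J ≤ 1 := pow_le_one₀ (by norm_num) (by norm_num)
    have h3 : (C + C2) ≤ |C + C2| := le_abs_self _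
    have h4 : 0 ≤ |C + C2| := abs_nonneg _
    nlinarith [mul_nonneg hJ0.le h4, mul_le_mul_of_nonneg_left h3 (sub_nonneg.mpr hJ1)]
  have h3 := hu_le J
  have h4 := hu_nonneg 0
  linarith


end Divergence

/-! ### The sieve -/

theorem totient_prod_le (F : Finset ℕ) (hF : ∀ p ∈ F, p.Prime) :
    ((Nat.totient (∏ p ∈ F, p) : ℕ) : ℝ) ≤
      ((∏ p ∈ F, p : ℕ) : ℝ) * Real.exp (-∑ p ∈ F, (1 : ℝ) / p) := by
  classical
  induction F using Finset.induction_on with
  | empty => simp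
  | insert p F hpF ih =>
    have hp : p.Prime := hF p (Finset.mem_insert_self _ _)
    have hF' : ∀ q ∈ F, q.Prime := fun q hq => hF q (Finset.mem_insert_of_mem hq)
    have hcop : Nat.Coprime p (∏ q ∈ F, q) := by
      apply Nat.Coprime.prod_right
      intro q hq
      exact (Nat.coprime_primes hp (hF' q hq)).mpr (by rintro rfl; exact hpF hq)
    rw [Finset.prod_insert hpF, Finset.sum_insert hpF, Nat.totient_mul hcop, Nat.totient_prime hp]
    have hp1 : (1 : ℝ) ≤ p := by exact_mod_cast hp.one_lt.le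
    have hp0 : (0 : ℝ) < p := by linarith
    have h1 : (((p - 1 : ℕ) : ℕ) : ℝ) ≤ p * Real.exp (-(1 / p : ℝ)) := by
      rw [Nat.cast_sub hp.one_lt.le]
      have := Real.add_one_le_exp (-(1 / p : ℝ))
      have h2 := mul_le_mul_of_nonneg_left this hp0.le
      have h3 : (p : ℝ) * (-(1 / p) + 1) = p - 1 := by field_simp; ring
      rw [h3] at h2
      simpa using h2
    have h2 := ih hF'
    rw [neg_add, Real.exp_add]
    push_cast
    calc (((p - 1 : ℕ) : ℕ) : ℝ) * ((Nat.totient (∏ q ∈ F, q) : ℕ) : ℝ)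
        ≤ (p * Real.exp (-(1 / p : ℝ))) *
          (((∏ q ∈ F, q : ℕ) : ℝ) * Real.exp (-∑ q ∈ F, (1 : ℝ) / q)) :=
          mul_le_mul h1 h2 (by positivity) (by positivity)
      _ = _ := by push_cast; ring

/-- The exceptional set, counted up to `N`. -/
theorem exceptions_le (F : Finset ℕ) (hF : ∀ p ∈ F, p.Prime ∧ p % 28 = 1) (N : ℕ) :
    (({n : ℕ | 1 ≤ n ∧ n ≤ N ∧ ¬ Four n}.ncard : ℕ) : ℝ) ≤
      Real.exp (-∑ p ∈ F, (1 : ℝ) / p) * N + ((∏ p ∈ F, p : ℕ) : ℝ) := by
  classical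
  set M := ∏ p ∈ F, p with hM
  have hM0 : M ≠ 0 := Finset.prod_ne_zero_iff.mpr fun p hp => (hF p hp).1.ne_zero
  have hsub : {n : ℕ | 1 ≤ n ∧ n ≤ N ∧ ¬ Four n} ⊆
      (((Finset.Ico 1 (1 + N)).filter (fun x => M.Coprime x) : Finset ℕ) : Set ℕ) := by
    rintro n ⟨h1, h2, h3⟩
    rw [Finset.mem_coe, Finset.mem_filter, Finset.mem_Ico]
    refine ⟨⟨h1, by omega⟩, ?_⟩
    apply Nat.Coprime.prod_left
    intro p hp
    rw [(hF p hp).1.coprime_iff_not_dvd]
    intro hdvd
    exact h3 (four_of_dvd (hF p hp).1 (hF p hp).2 h1 hdvd)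
  have h1 : {n : ℕ | 1 ≤ n ∧ n ≤ N ∧ ¬ Four n}.ncard ≤ Nat.totient M * (N / M + 1) := by
    refine (Set.ncard_le_ncard hsub (Finset.finite_toSet _)).trans ?_
    rw [Set.ncard_coe_finset]
    exact Nat.Ico_filter_coprime_le 1 N hM0
  have h2 : (({n : ℕ | 1 ≤ n ∧ n ≤ N ∧ ¬ Four n}.ncard : ℕ) : ℝ) ≤
      (Nat.totient M : ℝ) * (((N / M : ℕ) : ℝ) + 1) := by
    exact_mod_cast h1
  have hM0' : (0 : ℝ) < M := by exact_mod_cast Nat.pos_of_ne_zero hM0
  have h3 : ((N / M : ℕ) : ℝ) ≤ (N : ℝ) / M := Nat.cast_div_le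
  have h4 := totient_prod_le F fun p hp => (hF p hp).1
  rw [← hM] at h4
  have h5 : (Nat.totient M : ℝ) ≤ M := by exact_mod_cast Nat.totient_le M
  calc (({n : ℕ | 1 ≤ n ∧ n ≤ N ∧ ¬ Four n}.ncard : ℕ) : ℝ)
      ≤ (Nat.totient M : ℝ) * (((N / M : ℕ) : ℝ) + 1) := h2
    _ = (Nat.totient M : ℝ) * ((N / M : ℕ) : ℝ) + (Nat.totient M : ℝ) := by ring
    _ ≤ (M * Real.exp (-∑ p ∈ F, (1 : ℝ) / p)) * ((N : ℝ) / M) + M := by
        refine add_le_add (mul_le_mul h4 h3 (by positivity) (by positivity)) h5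
    _ = Real.exp (-∑ p ∈ F, (1 : ℝ) / p) * N + M := by
        field_simp

/-- The positive integers that are not sums of exactly four positive integers with product a
fourth power form a set of natural density zero. -/
theorem result :
    Filter.Tendsto
      (fun N : ℕ => (({n : ℕ | 1 ≤ n ∧ n ≤ N ∧ ¬ Four n}.ncard : ℕ) : ℝ) / (N : ℝ))
      Filter.atTop (nhds 0) := by
  classical
  have hunit : IsUnit (1 : ZMod 28) := isUnit_one
  have hns := not_summable_g (q := 28) hunit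
  rw [Metric.tendsto_atTop]
  intro ε hε
  -- choose finitely many primes `p ≡ 1 (mod 28)` with large reciprocal sum
  obtain ⟨F0, hF0⟩ : ∃ F0 : Finset ℕ, Real.log (2 / ε) + 1 < ∑ n ∈ F0, g (1 : ZMod 28) n := by
    by_contra hcon
    push Not at hcon
    exact hns (summable_of_sum_le (fun n => g_nonneg _ n) hcon)
  set F := F0.filter (fun n => n.Prime ∧ ((n : ℕ) : ZMod 28) = 1) with hFdef
  have hsum : ∑ n ∈ F0, g (1 : ZMod 28) n = ∑ p ∈ F, (1 : ℝ) / p := by
    rw [hFdef, Finset.sum_filter]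
    rfl
  have hF : ∀ p ∈ F, p.Prime ∧ p % 28 = 1 := by
    intro p hp
    rw [hFdef, Finset.mem_filter] at hp
    refine ⟨hp.2.1, ?_⟩
    have h1 : ((p : ℕ) : ZMod 28) = ((1 : ℕ) : ZMod 28) := by simpa using hp.2.2
    rw [ZMod.natCast_eq_natCast_iff'] at h1
    omega
  have hexp : Real.exp (-∑ p ∈ F, (1 : ℝ) / p) < ε / 2 := by
    rw [hsum] at hF0
    calc Real.exp (-∑ p ∈ F, (1 : ℝ) / p) < Real.exp (-Real.log (2 / ε)) := by
          apply Real.exp_lt_exp.mpr
          linarith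
      _ = ε / 2 := by
          rw [Real.exp_neg, Real.exp_log (by positivity)]
          field_simp
  set M := ∏ p ∈ F, p with hM
  obtain ⟨N0, hN0⟩ := exists_nat_gt (2 * (M : ℝ) / ε)
  refine ⟨N0 + 1, fun N hN => ?_⟩
  have hNpos : (0 : ℝ) < N := by
    have : 0 < N := by omega
    exact_mod_cast this
  have hNN : 2 * (M : ℝ) / ε < N := by
    have : (N0 : ℝ) ≤ N := by exact_mod_cast (by omega : N0 ≤ N)
    linarith
  have hMN : (M : ℝ) < ε / 2 * N := by
    rw [div_lt_iff₀ hε] at hNN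
    linarith
  have hbound := exceptions_le F hF N
  rw [← hM] at hbound
  rw [Real.dist_eq, sub_zero, abs_of_nonneg (by positivity), div_lt_iff₀ hNpos]
  have h6 : Real.exp (-∑ p ∈ F, (1 : ℝ) / p) * N < ε / 2 * N :=
    mul_lt_mul_of_pos_right hexp hNpos
  linarith

end Pool.Agent.Results.MP_e5c236_nt.ExactlyFourDensityOne
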